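import Pool.Agent.W845.GL.Stm

/-! The tensor product formula for homomorphism densities. -/

set_option autoImplicit false

namespace Pool.Agent.W584.GL

open Finset Pool.Agent.W845.GL
open scoped Classical

theorem t1 : S_T1 := by
  intro i k F
  unfold tW
  rw [Finset.prod_div_distrib]
  have h : ∏ j : Fin i, ∑ z : Fin k → Bool, ∏ e ∈ Eg F, ff j (z e.1) (z e.2) =
      ∑ y : Fin i → (Fin k → Bool), ∏ j : Fin i, ∏ e ∈ Eg F, ff j (y j e.1) (y j e.2) := by
    rw [Finset.prod_univ_sum, Fintype.piFinset_univ]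
  have h2 : ∑ x : Fin k → (Fin i → Bool), ∏ e ∈ Eg F, KK i (x e.1) (x e.2) =
      ∑ y : Fin i → (Fin k → Bool), ∏ j : Fin i, ∏ e ∈ Eg F, ff j (y j e.1) (y j e.2) := by
    rw [← (Equiv.piComm (fun (_ : Fin k) (_ : Fin i) => Bool)).sum_comp]
    refine Finset.sum_congr rfl ?_
    intro x _
    unfold KK
    rw [Finset.prod_comm]
    rfl
  have h3 : (Fintype.card (Fin i → Bool) : ℝ) ^ k = ∏ _j : Fin i, (Fintype.card Bool : ℝ) ^ k := by
    rw [Finset.prod_const, Finset.card_univ, Fintype.card_fin, Fintype.card_fun, Fintype.card_fin]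
    push_cast
    rw [← pow_mul, ← pow_mul, mul_comm]
  rw [h, h2, h3]

end Pool.Agent.W584.GL
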